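import Pool.Agent.V11280.H2.Places

/-!
# `ℓ`-Galois special points `x` of `𝒜_g` for which `A_x` has places of different kinds are CM points

Let `x` be a point of `𝒜_g` over the algebraic closure of `ℚ`, `A = A_x`, `W = H_1(A, ℚ)` with the
polarization form `ω₀`, `T` the tangent space at the origin and `per : W → T` the inclusion;
`V = ℚ_ℓ ⊗ W` is the rational Tate module, with the action `ρ` of the Galois group `Γ` of a field of
definition and the cyclotomic character `χ`.

A closed irreducible subvariety `Y` of `𝒜_g` through `x` (`Subvariety`) is given by its dimension, the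
Galois group `G` of a finitely generated field of definition of its generic point `η`, the action `rho`
of `G` on the Tate module of `A_η`, identified with `V` along a path to `x`, the cyclotomic character
`chi` and the homomorphism `Γ → G` (the decomposition group of `x`), which is compatible with the
actions. The group `G_{ℓ,x}` is contained in `G_{ℓ,Y}`; both groups are reductive (Faltings), so they
are equal if and only if all tensors fixed by `G_{ℓ,x}` are fixed by `G_{ℓ,Y}` (`SameGroup`: all Tate
classes on the powers of `A_x` are Tate classes for `Y`). The point `x` is `ℓ`-Galois special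
(`IsGaloisSpecial`) if this holds for no `Y` of positive dimension.

Hypotheses (published theorems).

* `hss`, `hF`: the theorems of Faltings.
* `hDeligne`: `Y₀` is the smallest special subvariety which contains `x`; the Hodge classes on the powers
  of `A_x` are, by definition of `Y₀`, Hodge classes along `Y₀`, so that they are Tate classes for
  `Y₀` by the theorem of Deligne on absolute Hodge classes.
* `hCM`: `x` is a CM point if it is a special point (`Y₀` is of dimension zero); `IsCM` says that the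
  Mumford-Tate group (its group of points over `ℚ_ℓ`) is commutative.
* `hplaces`: the Tate module `X` over the algebraic closure `K` of `ℚ_ℓ` is the sum of strongly
  irreducible subspaces `E i`; each `E i` is a line which is not self-dual, or it has a place of bad
  semistable reduction or places of good reduction as in `HasBadPlace`, `HasGoodPlaces` (and, if it is
  not self-dual, the `E j` which are twists of `E i` are isomorphic to it), or there is an element of
  finite order (a generator of tame inertia at a place of potentially good reduction) with isolated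
  ratios of eigenvalues on `E i` (`HasFinitePlace`).

Theorem. If `x` is `ℓ`-Galois special then it is a CM point (given the theorem on the centres
`CentreTheorem` of Vasiu and Ullmo-Yafaev, or without it if there are no Weil families, for instance if
no `E i` is isotropic). In fact `G_{ℓ,x}` is equal to `G_{ℓ,Y₀}` and to the Mumford-Tate group.
-/

set_option autoImplicit false

namespace Pool.Agent.Results.MP_09799c_ag.PlacesOfDifferentKinds

open Module TensorProduct Pool.Agent.Y126.Notions Pool.Agent.V11280.H2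
open Pool.Agent.H204R3.SP Pool.Agent.H204R3.GP Pool.Agent.W522.U
open Pool.Agent.TH118.MT Pool.Agent.Y144.MT

section defs

variable {k V Γ : Type} [Field k] [AddCommGroup V] [Module k V] [Group Γ]

/-- The `ℓ`-adic data of a closed irreducible subvariety `Y` of `𝒜_g` which contains the point `x`:
`V` is the Tate module of `A_x` with the action `ρ` of the Galois group `Γ` and the cyclotomic
character `χ`. -/
structure Subvariety (ρ : Representation k Γ V) (χ : Γ →* k) where
  /-- the dimension of `Y` -/
  dim : ℕ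
  /-- the Galois group of a field of definition of the generic point of `Y` -/
  G : Type
  [group : Group G]
  /-- its action on the Tate module, identified with `V` along a path from the generic point to `x` -/
  rho : Representation k G V
  /-- the cyclotomic character -/
  chi : G →* k
  /-- the homomorphism of the Galois groups (the decomposition group of `x`) -/
  spec : Γ →* G
  rho_spec : ∀ s, rho (spec s) = ρ s
  chi_spec : ∀ s, chi (spec s) = χ s

attribute [instance] Subvariety.group

/-- The groups `G_{ℓ,x}` and `G_{ℓ,Y}` are equal: all Tate classes on the powers of `A_x` are Tate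
classes for `Y`. -/
def SameGroup {ρ : Representation k Γ V} {χ : Γ →* k} (Y : Subvariety ρ χ) : Prop :=
  ∀ (m : ℕ) (φ : MultilinearMap k (fun _ : Fin m × Fin 2 => V) k), IsTateTensor ρ χ m φ →
    IsTateTensor Y.rho Y.chi m φ

/-- The point `x` is `ℓ`-Galois special: no closed irreducible subvariety `Y` of positive dimension
through `x` has the same group. -/
def IsGaloisSpecial {ρ : Representation k Γ V} {χ : Γ →* k} (S : Set (Subvariety ρ χ)) : Prop :=
  ∀ Y ∈ S, 0 < Y.dim → ¬SameGroup Y

variable {W T : Type} [AddCommGroup W] [Module ℚ W] [AddCommGroup T] [Module ℂ T]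

/-- `A_x` is of CM type: the Mumford-Tate group is commutative. -/
def IsCM [CharZero k] (per : W →+ T) (comp : W →+ V) : Prop :=
  ∀ (h h' : V ≃ₗ[k] V) (c c' : k), InMumfordTate per comp h c → InMumfordTate per comp h' c' →
    ∀ v, h (h' v) = h' (h v)

lemma isTate_span (ρ : Representation k Γ V) (χ : Γ →* k) (m : ℕ)
    {S : Set (MultilinearMap k (fun _ : Fin m × Fin 2 => V) k)} (hS : ∀ φ ∈ S, IsTateTensor ρ χ m φ)
    {φ : MultilinearMap k (fun _ : Fin m × Fin 2 => V) k} (hφ : φ ∈ Submodule.span k S) :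
    IsTateTensor ρ χ m φ := by
  induction hφ using Submodule.span_induction with
  | mem x hx => exact hS x hx
  | zero =>
    refine ⟨⊤, inferInstance, fun s _ v => ?_⟩
    simp
  | add x y _ _ hx hy =>
    obtain ⟨Δ, h1, h2⟩ := hx
    obtain ⟨Δ', h3, h4⟩ := hy
    refine ⟨Δ ⊓ Δ', inferInstance, fun s hs v => ?_⟩
    have e1 := h2 s hs.1 v
    have e2 := h4 s hs.2 v
    calc (x + y) (fun l => ρ s (v l)) = x (fun l => ρ s (v l)) + y (fun l => ρ s (v l)) := rfl
      _ = χ s ^ m * (x v + y v) := by rw [e1, e2, mul_add]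
      _ = χ s ^ m * (x + y) v := rfl
  | smul a x _ hx =>
    obtain ⟨Δ, h1, h2⟩ := hx
    refine ⟨Δ, h1, fun s hs v => ?_⟩
    have e1 := h2 s hs v
    calc (a • x) (fun l => ρ s (v l)) = a * x (fun l => ρ s (v l)) := rfl
      _ = χ s ^ m * (a * x v) := by rw [e1]; ring
      _ = χ s ^ m * (a • x) v := rfl

end defs

theorem result (ℓ : ℕ) [Fact ℓ.Prime]
    -- the complex abelian variety `A_x` with a polarization
    {W T : Type} [AddCommGroup W] [Module ℚ W] [FiniteDimensional ℚ W] [AddCommGroup T] [Module ℂ T]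
    (per : W →+ T) (ω₀ : W →ₗ[ℚ] W →ₗ[ℚ] ℚ) (halt : ∀ v, ω₀ v v = 0)
    (hnondeg : ∀ u, (∀ v, ω₀ v u = 0) → u = 0) (hω₀ : IsHodgeBilinear per ω₀)
    -- the action of the Galois group on the Tate module
    {Γ : Type} [Group Γ] (ρ : Representation ℚ_[ℓ] Γ (ℚ_[ℓ] ⊗[ℚ] W)) (χ : Γ →* ℚ_[ℓ])
    (hω : ∀ s u v, bcb ℚ_[ℓ] ω₀ (ρ s u) (ρ s v) = χ s * bcb ℚ_[ℓ] ω₀ u v)
    -- the theorems of Faltings
    (hss : FiniteIndexSemisimple ρ) (hF : FaltingsEnd per (incl ℚ_[ℓ] W) ρ)
    -- the subvarieties through `x`, the smallest special one and the theorem of Deligne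
    (S : Set (Subvariety ρ χ)) (Y₀ : Subvariety ρ χ) (hY₀ : Y₀ ∈ S)
    (hDeligne : ∀ (m : ℕ) (φ : MultilinearMap ℚ_[ℓ] (fun _ : Fin m × Fin 2 => ℚ_[ℓ] ⊗[ℚ] W) ℚ_[ℓ])
      (ψ : MultilinearMap ℚ (fun _ : Fin m × Fin 2 => W) ℚ), IsHodgeTensor per ψ →
      Compares (incl ℚ_[ℓ] W) φ ψ → IsTateTensor Y₀.rho Y₀.chi m φ)
    (hCM : Y₀.dim = 0 → IsCM (k := ℚ_[ℓ]) per (incl ℚ_[ℓ] W))
    -- the decomposition and the places
    {I : Type} (E : I → Submodule (AlgebraicClosure ℚ_[ℓ])
      (AlgebraicClosure ℚ_[ℓ] ⊗[ℚ_[ℓ]] (ℚ_[ℓ] ⊗[ℚ] W)))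
    (hE : ∀ i, StronglyIrreducible (bcr ρ (AlgebraicClosure ℚ_[ℓ])) (E i))
    (hsum : ⨆ i, E i = ⊤)
    (hplaces : HasPlaces (bcr ρ (AlgebraicClosure ℚ_[ℓ])) (bcc χ (AlgebraicClosure ℚ_[ℓ]))
      (bcb (AlgebraicClosure ℚ_[ℓ]) (bcb ℚ_[ℓ] ω₀)) E)
    -- the theorem on the centres, or its substitutes
    (hcen : CentreTheorem per (Pool.Agent.TH118.MT.extend (k := ℚ_[ℓ]) (AlgebraicClosure ℚ_[ℓ])
        (incl ℚ_[ℓ] W)) (bcr ρ (AlgebraicClosure ℚ_[ℓ])) (bcc χ (AlgebraicClosure ℚ_[ℓ])) ∨
      (∀ (Q : Type) [Fintype Q] [Nonempty Q]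
        (L : Q → Submodule (AlgebraicClosure ℚ_[ℓ])
          (AlgebraicClosure ℚ_[ℓ] ⊗[ℚ_[ℓ]] (ℚ_[ℓ] ⊗[ℚ] W))),
        ¬Pool.Agent.Y126.Notions.IsWeilFamily (bcr ρ (AlgebraicClosure ℚ_[ℓ]))
          (bcc χ (AlgebraicClosure ℚ_[ℓ])) L) ∨
      (∀ i, IsNotIsotropic (bcb (AlgebraicClosure ℚ_[ℓ]) (bcb ℚ_[ℓ] ω₀)) (E i))) :
    SameGroup Y₀ ∧ (IsGaloisSpecial S → IsCM (k := ℚ_[ℓ]) per (incl ℚ_[ℓ] W)) := by
  obtain ⟨h1, h2, h3⟩ := mumfordTate_places ℓ per ω₀ halt hnondeg hω₀ ρ χ hω hss hF E hE hsum hplaces
  have strong : MumfordTateStrong per (incl ℚ_[ℓ] W) ρ χ → MumfordTate per (incl ℚ_[ℓ] W) ρ χ := by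
    intro h m φ hφ
    refine Submodule.span_mono ?_ (h m φ hφ)
    rintro φ' ⟨ψ, g1, -, g2⟩
    exact ⟨ψ, g1, g2⟩
  have hMT : MumfordTate per (incl ℚ_[ℓ] W) ρ χ := by
    rcases hcen with h | h | h
    · exact h1 h
    · exact strong (h2 h)
    · exact strong (h3 h)
  have hsame : SameGroup Y₀ := by
    intro m φ hφ
    refine isTate_span Y₀.rho Y₀.chi m ?_ (hMT m φ hφ)
    rintro φ' ⟨ψ, g1, g2⟩
    exact hDeligne m φ' ψ g1 g2
  refine ⟨hsame, fun h => hCM ?_⟩
  by_contra h0
  exact h Y₀ hY₀ (Nat.pos_of_ne_zero h0) hsame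

end Pool.Agent.Results.MP_09799c_ag.PlacesOfDifferentKinds
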